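import Pool.Agent.Q197.SP.R5d7

/-!
# Goldbach's problem with a prime-indexed summand in Cramér's random model: the least such summand

`A` is Cramér's random model of the primes and `el S m` the `m`-th element `≥ 3` of `S`, the model of the `m`-th prime.
The numbers `(el A)^[a + 1] m`, `m ≥ 1`, are the elements of order `a` (for `a = 1`: those with an index in `A`, the
question). For every order `a` we determine, almost surely, the upper limit of the least `x` of order `a` with
`2 n - x ∈ A`, the exponents of the numbers of the exceptional `n`, and the distribution of the typical values.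
-/

set_option autoImplicit false

namespace Pool.Agent.Results.MP_5d7b92_nt.LeastPrimeIndexedSummand

open MeasureTheory Filter Pool.Agent.Q120.MF Pool.Agent.Q197.CI Pool.Agent.Q197.SP.R5d7
open scoped Topology

theorem result :
    (∃ (Ω : Type) (_ : MeasurableSpace Ω) (μ : Measure Ω) (A : Ω → Set ℕ), IsProbabilityMeasure μ ∧ IsCramer μ A) ∧
    ∀ (Ω : Type) [MeasurableSpace Ω] (μ : Measure Ω) [IsProbabilityMeasure μ] (A : Ω → Set ℕ), IsCramer μ A →
      ∀ a : ℕ,
      -- the question (`a = 1`), for all large `n`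
      (∀ᵐ ω ∂μ, (A ω).Infinite ∧ ∀ᶠ n : ℕ in atTop, ∃ x : ℕ, x < n ∧ Sol a (A ω) n x) ∧
      -- the least `x`
      (∀ c : ℝ, 2 ^ (a + 1) < c → ∀ᵐ ω ∂μ, ∀ᶠ n : ℕ in atTop,
        ∃ x : ℕ, (x : ℝ) ≤ c * (Real.log n ^ 2 * Real.log (Real.log n) ^ (a + 1)) ∧ Sol a (A ω) n x) ∧
      (∀ c : ℝ, 0 < c → c < 2 ^ (a + 1) → ∀ᵐ ω ∂μ, Tendsto (fun N : ℕ =>
        Real.log (cntP (fun n => NoSol (Sol a (A ω)) n (c * (Real.log n ^ 2 * Real.log (Real.log n) ^ (a + 1)))) N) /
          Real.log N) atTop (𝓝 (1 - c / 2 ^ (a + 1)))) ∧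
      -- typical values
      (∀ t : ℝ, 0 < t → ∀ᵐ ω ∂μ, Tendsto (fun N : ℕ =>
        cntP (fun n => NoSol (Sol a (A ω)) n (t * (Real.log n * Real.log (Real.log n) ^ (a + 1)))) N / N) atTop
          (𝓝 (Real.exp (-t)))) := by
  refine ⟨all_parts.1, fun Ω _ μ _ A hA a => ?_⟩
  obtain ⟨h1, h2, h3, h4, _⟩ := all_parts.2 Ω μ A hA a
  exact ⟨h1, h2, h3, h4⟩

end Pool.Agent.Results.MP_5d7b92_nt.LeastPrimeIndexedSummand
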