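import Pool.Agent.Q197.SP.R5d7

/-!
# Goldbach's problem with a prime-indexed summand in Cramér's random model: the number of representations

`A` is Cramér's random model of the primes and `el S m` the `m`-th element `≥ 3` of `S`, the model of the `m`-th prime.
The numbers `(el A)^[a + 1] m`, `m ≥ 1`, are the elements of order `a` (for `a = 1`: those with an index in `A`, the
question). Almost surely, for every order `a`, the number of all `x < n` of order `a` with `2 n - x ∈ A` is asymptotic to
`n / log ^ (a + 2) n`, as `n` tends to infinity through all integers.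
-/

set_option autoImplicit false

namespace Pool.Agent.Results.MP_5d7b92_nt.NumberOfRepresentations

open MeasureTheory Filter Pool.Agent.Q120.MF Pool.Agent.Q197.CI Pool.Agent.Q197.SP.R5d7
open scoped Topology

theorem result :
    (∃ (Ω : Type) (_ : MeasurableSpace Ω) (μ : Measure Ω) (A : Ω → Set ℕ), IsProbabilityMeasure μ ∧ IsCramer μ A) ∧
    ∀ (Ω : Type) [MeasurableSpace Ω] (μ : Measure Ω) [IsProbabilityMeasure μ] (A : Ω → Set ℕ), IsCramer μ A →
      ∀ a : ℕ, ∀ᵐ ω ∂μ, Tendsto (fun n : ℕ =>
        ({x : ℕ | x < n ∧ Sol a (A ω) n x}.ncard : ℝ) * Real.log n ^ (a + 2) / n) atTop (𝓝 1) := by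
  refine ⟨all_parts.1, fun Ω _ μ _ A hA a => ?_⟩
  exact (all_parts.2 Ω μ A hA a).2.2.2.2

end Pool.Agent.Results.MP_5d7b92_nt.NumberOfRepresentations
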