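import Pool.Agent.Q145.MT.GoldQ
import Pool.Agent.Q145.MT.PIdx
import Pool.Agent.Q145.MT.VecAbs

set_option autoImplicit false
set_option maxHeartbeats 4000000

/-! # The small summands from a given set of primes, in particular the prime-indexed ones

Let `Q` be a set of primes, for example the set `P_k` of the primes `p` for which `p, π(p), …, π^k(p)` are all prime
(`k = 1`: the prime-indexed primes), and `R_Q(N) = {p ∈ Q : N - p is prime}`.

(1) For an ARBITRARY set `Q` of primes and `y ≤ log x (log₂ x)^A` with `Q(y)^(1-ε) y^ε ≤ c f(x)`, where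
`f(x) = log x (log₂ x)² log₄ x / (log₃ x)²`: for any `K` primes `K < q_j ≤ y` there are at least `x^(9/10)` even
`N ∈ (x, 4x]` for which ALL elements of `R_Q(N)` up to `y` are among the `q_j`, and for which `N - q_j` is prime for
many `j`.

(2) For `Q = P_k` this holds with `y = log x (log₂ x)^(k + 3 - ε)`.

(3) For every `k` and `r` there is `K` such that for all reals `0 ≤ β_1 ≤ … ≤ β_K` there are `i_1 < … < i_r` for which
`(β_(i_1), …, β_(i_r))` is a limit point of the vectors of the `r` least elements of `R_(P_k)(N)`, divided by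
`log N (log₂ N)^(k + 1)`, `N` even. -/

namespace Pool.Agent.Results.MP_5d7b92_nt.SmallSummandSets

open Finset Filter
open Pool.Agent.Q145.MT
open Pool.Agent.H256R2.SC (ff)
open Pool.Agent.H362R2.RQ (fib)

/-- `f(x) = log x (log₂ x)² log₄ x / (log₃ x)²` (iterated natural logarithms). -/
noncomputable def f (x : ℝ) : ℝ :=
  Real.log x * (Real.log (Real.log x)) ^ 2 * Real.log (Real.log (Real.log (Real.log x))) /
    (Real.log (Real.log (Real.log x))) ^ 2

theorem f_eq (x : ℝ) : f x = ff x := rfl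

/-- The primes `p` such that `p, π(p), π(π(p)), …, π^k(p)` are all prime; for `k = 1` the prime-indexed primes. -/
def Order (k : ℕ) : Set ℕ := {p : ℕ | ∀ j ≤ k, (Nat.primeCounting^[j] p).Prime}

/-- Every `p ∈ Q`, `p ≤ y`, for which `N - p` is prime is one of the `q l`. -/
def Only (Q : Set ℕ) (y : ℝ) {K : ℕ} (q : Fin K → ℕ) (N : ℕ) : Prop :=
  ∀ p ∈ Q, (p : ℝ) ≤ y → p ≤ N → (N - p).Prime → ∃ l, p = q l

/-- The even numbers `N ∈ (x, 4 x]` with `Only Q y q N` for which the indices `j` with `N - q j` prime have at least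
`η m` different colours. -/
def Numbers (η : ℝ) {m K : ℕ} (x : ℝ) (Q : Set ℕ) (y : ℝ) (q : Fin K → ℕ) (col : Fin K → Fin m) : Set ℕ :=
  {N : ℕ | x < N ∧ (N : ℝ) ≤ 4 * x ∧ Even N ∧
    η * m ≤ ({e : Fin m | ∃ j, col j = e ∧ q j ≤ N ∧ (N - q j).Prime}.ncard : ℝ) ∧ Only Q y q N}

/-- `p 0 < p 1 < …` are the `r` least elements `p` of `Q` such that `N - p` is prime. -/
def Least (Q : Set ℕ) {r : ℕ} (N : ℕ) (p : Fin r → ℕ) : Prop :=
  StrictMono p ∧ (∀ k, p k ∈ Q ∧ p k ≤ N ∧ (N - p k).Prime) ∧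
    ∀ q ∈ Q, q ≤ N → (N - q).Prime → (∃ k, q = p k) ∨ ∀ k, p k < q

/-- the final form of the counting statement -/
theorem count_of {η x y : ℝ} {m K : ℕ} {S : Finset ℕ} {Q : Set ℕ}
    (hS : ∀ p ∈ Q, (p : ℝ) ≤ y → p ∈ S)
    (hx : ∀ q : Fin K → ℕ, Function.Injective q → (∀ j, (q j).Prime ∧ K < q j ∧ q j ≠ 2 ∧ (q j : ℝ) ≤ y) →
      ∀ col : Fin K → Fin m, (∀ e, K ≤ 2 * m * fib col e) →
      ∀ bad : Finset ℕ, (bad.card : ℝ) ≤ x ^ (9 / 10 : ℝ) →
      ∃ N : ℕ, x < N ∧ (N : ℝ) ≤ 4 * x ∧ Even N ∧ N ∉ bad ∧ (∀ j, q j ≤ N) ∧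
        (∃ E : Finset (Fin m), η * m ≤ E.card ∧ ∀ e ∈ E, ∃ j, col j = e ∧ (N - q j).Prime) ∧
        ∀ p ∈ S, ∀ p' : ℕ, p'.Prime → p + p' = N → ∃ l, p = q l)
    (q : Fin K → ℕ) (hqinj : Function.Injective q)
    (hq : ∀ j, (q j).Prime ∧ K < q j ∧ q j ≠ 2 ∧ (q j : ℝ) ≤ y)
    (col : Fin K → Fin m) (hcol : ∀ e, K ≤ 2 * m * {j | col j = e}.ncard) :
    x ^ (9 / 10 : ℝ) ≤ ((Numbers η x Q y q col).ncard : ℝ) := by
  classical
  have hfin : (Numbers η x Q y q col).Finite := by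
    apply (Set.finite_Iic ⌊4 * x⌋₊).subset
    intro n hn
    exact Nat.le_floor hn.2.1
  by_contra hcon
  push Not at hcon
  rw [Set.ncard_eq_toFinset_card _ hfin] at hcon
  have hcol' : ∀ e, K ≤ 2 * m * fib col e := by
    intro e
    have h1 : {j | col j = e}.ncard = fib col e := by
      unfold Pool.Agent.H362R2.RQ.fib
      rw [← Set.ncard_coe_finset]
      congr 1
      ext j
      simp
    rw [← h1]
    exact hcol e
  obtain ⟨N, h1, h2, h3, h4, h5, ⟨E, hE1, hE2⟩, h6⟩ := hx q hqinj hq col hcol' hfin.toFinset hcon.le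
  apply h4
  rw [Set.Finite.mem_toFinset]
  refine ⟨h1, h2, h3, ?_, fun p hp hpy hpN hpp => h6 p (hS p hp hpy) (N - p) hpp (by omega)⟩
  refine hE1.trans ?_
  have h7 : (E : Set (Fin m)) ⊆ {e : Fin m | ∃ j, col j = e ∧ q j ≤ N ∧ (N - q j).Prime} := by
    intro e he
    obtain ⟨j, hj1, hj2⟩ := hE2 e he
    exact ⟨j, hj1, h5 j, hj2⟩
  have h8 := Set.ncard_le_ncard h7 (Set.toFinite _)
  rw [Set.ncard_coe_finset] at h8
  exact_mod_cast h8

/-- the count of the primes of order `k` up to `log x (log₂ x)^(k+3-ε)` -/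
theorem order_good (k : ℕ) (ε : ℝ) (hε : 0 < ε) (hε1 : ε ≤ 1) : ∃ h : ℕ, 1 ≤ h ∧ ∀ c : ℝ, 0 < c → ∀ᶠ x : ℝ in atTop,
    ((PIset k ⌊Real.log x * Real.log (Real.log x) ^ ((k : ℝ) + 3 - ε)⌋₊).card : ℝ) ^ (1 - 1 / (h : ℝ)) *
      (Real.log x * Real.log (Real.log x) ^ ((k : ℝ) + 3 - ε)) ^ (1 / (h : ℝ)) ≤ c * ff x ∧
    Real.log x * Real.log (Real.log x) ^ ((k : ℝ) + 3 - ε) ≤ Real.log x * Real.log (Real.log x) ^ (k + 3) := by
  obtain ⟨h, hh⟩ : ∃ h : ℕ, h = ⌈2 * ((k : ℝ) + 1) / ε⌉₊ + 1 := ⟨_, rfl⟩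
  have hh1 : 1 ≤ h := by omega
  have hhr : 2 * ((k : ℝ) + 1) / ε ≤ h := by
    refine (Nat.le_ceil _).trans ?_
    exact_mod_cast (by omega : ⌈2 * ((k : ℝ) + 1) / ε⌉₊ ≤ h)
  have hh0 : (0 : ℝ) < h := by exact_mod_cast hh1
  have hkh : ((k : ℝ) + 1) / h ≤ ε / 2 := by
    rw [div_le_iff₀ hε] at hhr
    rw [div_le_iff₀ hh0]
    linarith
  have hh2 : 1 / (h : ℝ) ≤ 1 := by
    rw [div_le_one hh0]
    exact_mod_cast hh1
  refine ⟨h, hh1, fun c hc => ?_⟩
  obtain ⟨C, hC, y₀, hy₀⟩ := card_PIset k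
  have t1 := Real.tendsto_log_atTop
  have t2 : Tendsto (fun x : ℝ => Real.log (Real.log x)) atTop atTop := t1.comp t1
  have t3 : Tendsto (fun x : ℝ => Real.log (Real.log (Real.log x))) atTop atTop := t1.comp t2
  filter_upwards [ev (2 + y₀), t3.eventually (Pool.Agent.H378R2.ev_pow_exp 2 (ε / 2) (C / c) (by positivity))]
    with x hev h3
  obtain ⟨m0, m1, m2, m3, m4⟩ := hev
  have hy0' : (0 : ℝ) ≤ y₀ := Nat.cast_nonneg _
  have hf : ff x = Real.log x * (Real.log (Real.log x)) ^ 2 * Real.log (Real.log (Real.log (Real.log x))) /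
      (Real.log (Real.log (Real.log x))) ^ 2 := rfl
  set l1 := Real.log x with hl1
  set l2 := Real.log l1 with hl2
  set l3 := Real.log l2 with hl3
  set l4 := Real.log l3 with hl4
  have p1 : 0 < l1 := by linarith
  have p2 : 0 < l2 := by linarith
  have p3 : 0 < l3 := by linarith
  have p21 : 1 ≤ l2 := by linarith
  set Y := l1 * l2 ^ ((k : ℝ) + 3 - ε) with hY
  have hk0 : (0 : ℝ) ≤ k := Nat.cast_nonneg k
  constructor
  · have e0 : l2 ^ (1 : ℝ) ≤ l2 ^ ((k : ℝ) + 3 - ε) := Real.rpow_le_rpow_of_exponent_le p21 (by linarith)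
    rw [Real.rpow_one] at e0
    have e1 : l1 * 2 ≤ Y := by
      rw [hY]
      apply mul_le_mul_of_nonneg_left _ p1.le
      linarith
    have hY0 : 0 < Y := by linarith
    obtain ⟨n, hn⟩ : ∃ n : ℕ, n = ⌊Y⌋₊ := ⟨_, rfl⟩
    rw [← hn]
    have hn1 : (n : ℝ) ≤ Y := by rw [hn]; exact Nat.floor_le hY0.le
    have hn2 : l1 ≤ n := by
      have := Nat.lt_floor_add_one Y
      rw [← hn] at this
      linarith
    have hny : y₀ ≤ n := by
      have : (y₀ : ℝ) ≤ n := by linarith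
      exact_mod_cast this
    have hcard := hy₀ n hny
    have hlogn : l2 ≤ Real.log n := Real.log_le_log p1 hn2
    have e2 : ((PIset k n).card : ℝ) ≤ C * Y / l2 ^ (k + 1) := by
      rw [le_div_iff₀ (by positivity)]
      calc ((PIset k n).card : ℝ) * l2 ^ (k + 1) ≤ ((PIset k n).card : ℝ) * Real.log n ^ (k + 1) := by
            gcongr
        _ ≤ C * n := hcard
        _ ≤ C * Y := by gcongr
    have hh3 : 0 ≤ 1 - 1 / (h : ℝ) := by linarith
    have e3 : ((PIset k n).card : ℝ) ^ (1 - 1 / (h : ℝ)) * Y ^ (1 / (h : ℝ)) ≤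
        C * (Y / l2 ^ (((k : ℝ) + 1) * (1 - 1 / (h : ℝ)))) := by
      have g1 : C * Y / l2 ^ (k + 1) = C * (Y * (l2 ^ (k + 1))⁻¹) := by
        rw [div_eq_mul_inv, mul_assoc]
      have g2 : (C * Y / l2 ^ (k + 1)) ^ (1 - 1 / (h : ℝ)) =
          C ^ (1 - 1 / (h : ℝ)) * (Y ^ (1 - 1 / (h : ℝ)) * (l2 ^ (((k : ℝ) + 1) * (1 - 1 / (h : ℝ))))⁻¹) := by
        rw [g1, Real.mul_rpow (by linarith) (by positivity), Real.mul_rpow hY0.le (by positivity),
          Real.inv_rpow (by positivity), ← Real.rpow_natCast, ← Real.rpow_mul p2.le]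
        push_cast
        rfl
      calc ((PIset k n).card : ℝ) ^ (1 - 1 / (h : ℝ)) * Y ^ (1 / (h : ℝ))
          ≤ (C * Y / l2 ^ (k + 1)) ^ (1 - 1 / (h : ℝ)) * Y ^ (1 / (h : ℝ)) := by
            apply mul_le_mul_of_nonneg_right _ (by positivity)
            exact Real.rpow_le_rpow (Nat.cast_nonneg _) e2 hh3
        _ = C ^ (1 - 1 / (h : ℝ)) * ((Y ^ (1 - 1 / (h : ℝ)) * Y ^ (1 / (h : ℝ))) *
            (l2 ^ (((k : ℝ) + 1) * (1 - 1 / (h : ℝ))))⁻¹) := by
            rw [g2]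
            ring
        _ = C ^ (1 - 1 / (h : ℝ)) * (Y / l2 ^ (((k : ℝ) + 1) * (1 - 1 / (h : ℝ)))) := by
            rw [← Real.rpow_add hY0]
            have : 1 - 1 / (h : ℝ) + 1 / h = 1 := by ring
            rw [this, Real.rpow_one, ← div_eq_mul_inv Y]
        _ ≤ C * (Y / l2 ^ (((k : ℝ) + 1) * (1 - 1 / (h : ℝ)))) := by
            apply mul_le_mul_of_nonneg_right _ (by positivity)
            calc C ^ (1 - 1 / (h : ℝ)) ≤ C ^ (1 : ℝ) :=
                  Real.rpow_le_rpow_of_exponent_le hC (by linarith [one_div_pos.2 hh0])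
              _ = C := Real.rpow_one C
    refine e3.trans ?_
    have e4 : Y / l2 ^ (((k : ℝ) + 1) * (1 - 1 / (h : ℝ))) ≤ l1 * l2 ^ (2 - ε / 2) := by
      rw [hY, mul_div_assoc, ← Real.rpow_sub p2]
      apply mul_le_mul_of_nonneg_left _ p1.le
      apply Real.rpow_le_rpow_of_exponent_le p21
      have g1 : ((k : ℝ) + 1) * (1 - 1 / (h : ℝ)) = (k : ℝ) + 1 - ((k : ℝ) + 1) / h := by ring
      rw [g1]
      linarith
    have e5 : l2 ^ (2 - ε / 2) = l2 ^ 2 / l2 ^ (ε / 2) := by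
      rw [Real.rpow_sub p2, Real.rpow_two]
    have e6 : Real.exp (ε / 2 * l3) = l2 ^ (ε / 2) := by
      rw [Real.rpow_def_of_pos p2, ← hl3]
      congr 1
      ring
    rw [e6] at h3
    have e7 : 0 < l2 ^ (ε / 2) := Real.rpow_pos_of_pos p2 _
    have e8 : C * l3 ^ 2 ≤ c * l2 ^ (ε / 2) := by
      have : C / c * l3 ^ 2 = C * l3 ^ 2 / c := by ring
      rw [this, div_le_iff₀ hc] at h3
      linarith
    rw [e5] at e4
    generalize l2 ^ (ε / 2) = E at e4 e7 e8
    calc C * (Y / l2 ^ (((k : ℝ) + 1) * (1 - 1 / (h : ℝ)))) ≤ C * (l1 * (l2 ^ 2 / E)) := by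
          gcongr
      _ ≤ c * (l1 * l2 ^ 2 * 1 / l3 ^ 2) := by
          have g1 : C * (l1 * (l2 ^ 2 / E)) = (C * l3 ^ 2) * (l1 * l2 ^ 2) / (l3 ^ 2 * E) := by
            field_simp
          have g2 : c * (l1 * l2 ^ 2 * 1 / l3 ^ 2) = (c * E) * (l1 * l2 ^ 2) / (l3 ^ 2 * E) := by
            field_simp
          rw [g1, g2]
          gcongr
      _ ≤ c * ff x := by
          rw [hf]
          gcongr
          linarith
  · rw [hY]
    apply mul_le_mul_of_nonneg_left _ p1.le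
    rw [← Real.rpow_natCast]
    apply Real.rpow_le_rpow_of_exponent_le p21
    push_cast
    linarith

theorem mem_PIset {k n p : ℕ} (h : p ∈ PIset k n) : PI k p ∧ p ≤ n := by
  classical
  unfold PIset at h
  rw [mem_filter, mem_Icc] at h
  exact ⟨h.2, h.1.2⟩

/-- the range of the primes of order `k` -/
noncomputable def range (k : ℕ) (ε x : ℝ) : ℝ := Real.log x * Real.log (Real.log x) ^ ((k : ℝ) + 3 - ε)

theorem main : ∃ η : ℝ, 0 < η ∧ ∀ m : ℕ, 1 ≤ m → ∃ K : ℕ, m ≤ K ∧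
    (∀ (A : ℕ) (ε : ℝ), 0 < ε → ∃ c : ℝ, 0 < c ∧ ∃ x₀ : ℝ, ∀ x : ℝ, x₀ ≤ x →
      ∀ Q : Set ℕ, (∀ p ∈ Q, p.Prime) → ∀ y : ℝ, y ≤ Real.log x * (Real.log (Real.log x)) ^ A →
      ({p ∈ Q | (p : ℝ) ≤ y}.ncard : ℝ) ^ (1 - ε) * y ^ ε ≤ c * f x →
      ∀ q : Fin K → ℕ, Function.Injective q → (∀ j, (q j).Prime ∧ K < q j ∧ q j ≠ 2 ∧ (q j : ℝ) ≤ y) →
      ∀ col : Fin K → Fin m, (∀ e, K ≤ 2 * m * {j | col j = e}.ncard) →
      x ^ (9 / 10 : ℝ) ≤ ((Numbers η x Q y q col).ncard : ℝ)) ∧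
    (∀ (k : ℕ) (ε : ℝ), 0 < ε → ε ≤ 1 → ∃ x₀ : ℝ, ∀ x : ℝ, x₀ ≤ x →
      ∀ q : Fin K → ℕ, Function.Injective q → (∀ j, (q j).Prime ∧ K < q j ∧ q j ≠ 2 ∧ (q j : ℝ) ≤ range k ε x) →
      ∀ col : Fin K → Fin m, (∀ e, K ≤ 2 * m * {j | col j = e}.ncard) →
      x ^ (9 / 10 : ℝ) ≤ ((Numbers η x (Order k) (range k ε x) q col).ncard : ℝ)) ∧
    ∀ (r : ℕ), (r : ℝ) ≤ η * m → ∀ (k : ℕ) (β : Fin K → ℝ), Monotone β → (∀ j, 0 ≤ β j) →
      ∃ I : Fin r → Fin K, StrictMono I ∧ ∀ ε : ℝ, 0 < ε → ∀ N₀ : ℕ, ∃ N : ℕ, N₀ ≤ N ∧ Even N ∧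
        ∃ p : Fin r → ℕ, Least (Order k) N p ∧
          ∀ i, |(p i : ℝ) / (Real.log N * Real.log (Real.log N) ^ (k + 1)) - β (I i)| < ε := by
  classical
  obtain ⟨η, hη, hs⟩ := sigQ
  refine ⟨η, hη, fun m hm => ?_⟩
  obtain ⟨K, hmK, hK⟩ := hs m hm
  refine ⟨K, hmK, ?_, ?_, ?_⟩
  · intro A ε hε
    obtain ⟨h, hh⟩ : ∃ h : ℕ, h = ⌈1 / ε⌉₊ + 2 := ⟨_, rfl⟩
    have hh1 : 1 ≤ h := by omega
    have hhr : 1 / ε ≤ h := by
      refine (Nat.le_ceil _).trans ?_
      exact_mod_cast (by omega : ⌈1 / ε⌉₊ ≤ h)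
    have hh0 : (0 : ℝ) < h := by exact_mod_cast hh1
    have hhε : 1 / (h : ℝ) ≤ ε := by
      rw [div_le_iff₀ hε] at hhr
      rw [div_le_iff₀ hh0]
      linarith
    have hh2 : 1 / (h : ℝ) < 1 := by
      rw [div_lt_one hh0]
      exact_mod_cast (by omega : 1 < h)
    obtain ⟨c, hc, hx⟩ := hK A h hh1
    obtain ⟨x₀, hx₀⟩ := eventually_atTop.1 (hx.and (ev 0))
    refine ⟨c, hc, x₀, fun x hx1 Q hQ y hy hyc q hqinj hq col hcol => ?_⟩
    obtain ⟨hx2, -, -, -, -, -⟩ := hx₀ x hx1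
    have hfin : {p ∈ Q | (p : ℝ) ≤ y}.Finite := by
      apply (Set.finite_Iic ⌊y⌋₊).subset
      intro p hp
      exact Nat.le_floor hp.2
    have hcard : {p ∈ Q | (p : ℝ) ≤ y}.ncard = hfin.toFinset.card := Set.ncard_eq_toFinset_card _ hfin
    have hK1 : 0 < K := lt_of_lt_of_le hm hmK
    have hy2 : 2 ≤ y := by
      have h1 := hq ⟨0, hK1⟩
      have h2 : ((2 : ℕ) : ℝ) ≤ q ⟨0, hK1⟩ := by exact_mod_cast h1.1.two_le
      push_cast at h2
      linarith [h1.2.2.2]
    refine count_of (S := hfin.toFinset) (fun p hp hpy => (hfin.mem_toFinset).2 ⟨hp, hpy⟩)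
      (hx2 hfin.toFinset y (fun p hp => ?_) hy ?_) q hqinj hq col hcol
    · have h1 := (hfin.mem_toFinset).1 hp
      exact ⟨hQ p h1.1, h1.2⟩
    · rw [hcard] at hyc
      rw [← f_eq]
      refine le_trans ?_ hyc
      set n := hfin.toFinset.card with hn
      rcases Nat.eq_zero_or_pos n with h0 | h0
      · rw [h0, Nat.cast_zero, Real.zero_rpow (by linarith), zero_mul]
        exact mul_nonneg (Real.rpow_nonneg le_rfl _) (Real.rpow_nonneg (by linarith) _)
      · have hny : (n : ℝ) ≤ y := by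
          have h1 : n ≤ (Icc 1 ⌊y⌋₊).card := by
            apply card_le_card
            intro p hp
            have h2 := (hfin.mem_toFinset).1 hp
            rw [mem_Icc]
            exact ⟨(hQ p h2.1).one_lt.le, Nat.le_floor h2.2⟩
          rw [Nat.card_Icc, Nat.add_sub_cancel] at h1
          exact (Nat.le_floor_iff (by linarith)).1 h1
        have hn0 : (0 : ℝ) < n := by exact_mod_cast h0
        have h1 : (n : ℝ) ^ (ε - 1 / (h : ℝ)) ≤ y ^ (ε - 1 / (h : ℝ)) :=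
          Real.rpow_le_rpow hn0.le hny (by linarith)
        calc (n : ℝ) ^ (1 - 1 / (h : ℝ)) * y ^ (1 / (h : ℝ))
            = (n : ℝ) ^ (1 - ε) * ((n : ℝ) ^ (ε - 1 / (h : ℝ)) * y ^ (1 / (h : ℝ))) := by
              rw [← mul_assoc, ← Real.rpow_add hn0]
              congr 2
              ring
          _ ≤ (n : ℝ) ^ (1 - ε) * (y ^ (ε - 1 / (h : ℝ)) * y ^ (1 / (h : ℝ))) := by gcongr
          _ = (n : ℝ) ^ (1 - ε) * y ^ ε := by
              rw [← Real.rpow_add (by linarith)]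
              congr 2
              ring
  · intro k ε hε hε1
    obtain ⟨h, hh1, hgood⟩ := order_good k ε hε hε1
    obtain ⟨c, hc, hx⟩ := hK (k + 3) h hh1
    obtain ⟨x₀, hx₀⟩ := eventually_atTop.1 (hx.and ((hgood c hc).and (ev 1)))
    refine ⟨x₀, fun x hx1 q hqinj hq col hcol => ?_⟩
    obtain ⟨hx2, ⟨hx3, hx4⟩, -, m1, m2, -, -⟩ := hx₀ x hx1
    have hr0 : 0 ≤ range k ε x := by
      unfold range
      have : 0 ≤ Real.log (Real.log x) := by linarith
      exact mul_nonneg (by linarith) (Real.rpow_nonneg this _)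
    refine count_of (S := PIset k ⌊range k ε x⌋₊) (fun p hp hpy => ?_)
      (hx2 _ (range k ε x) (fun p hp => ?_) hx4 hx3) q hqinj hq col hcol
    · unfold PIset
      rw [mem_filter, mem_Icc]
      exact ⟨⟨(PI_prime hp).one_lt.le, Nat.le_floor hpy⟩, hp⟩
    · obtain ⟨h1, h2⟩ := mem_PIset hp
      exact ⟨PI_prime h1, (Nat.le_floor_iff hr0).1 h2⟩
  · intro r hr k
    obtain ⟨h, hh1, hgood⟩ := order_good k 1 one_pos le_rfl
    obtain ⟨c, hc, hx⟩ := hK (k + 3) h hh1
    have t1 := Real.tendsto_log_atTop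
    apply limit_abs (fun p => p ∈ Order k) (fun x => Real.log x * Real.log (Real.log x) ^ (k + 1)) r K
    intro β hβ hβ0 ε hε N₀
    apply vectors_abs (fun p => p ∈ Order k) (fun p hp => PI_prime hp)
      (fun x => Real.log x * Real.log (Real.log x) ^ (k + 1)) (range k 1) (PI_below k) _ _ _ η r m K hm hmK hr _
      β hβ hβ0 ε hε N₀
    · -- `D` tends to infinity
      intro a
      filter_upwards [ev (1 + |a|)] with x hev
      obtain ⟨m0, m1, m2, m3, m4⟩ := hev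
      have h0 := abs_nonneg a
      have h1 := le_abs_self a
      have h2 : 1 ≤ Real.log (Real.log x) ^ (k + 1) := one_le_pow₀ (by linarith)
      nlinarith
    · -- `D` is slowly varying
      intro ε' hε'
      obtain ⟨δ, hδ⟩ : ∃ δ : ℝ, δ = Real.log (1 + ε') / (k + 2) := ⟨_, rfl⟩
      have hlε : 0 < Real.log (1 + ε') := Real.log_pos (by linarith)
      have hδ0 : 0 < δ := by rw [hδ]; positivity
      have hpow : (1 + δ) ^ (k + 2) ≤ 1 + ε' := by
        calc (1 + δ) ^ (k + 2) ≤ (Real.exp δ) ^ (k + 2) := by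
              have := Real.add_one_le_exp δ
              exact pow_le_pow_left₀ (by linarith) (by linarith) _
          _ = Real.exp (((k + 2 : ℕ) : ℝ) * δ) := (Real.exp_nat_mul δ (k + 2)).symm
          _ = 1 + ε' := by
              rw [hδ]
              push_cast
              rw [mul_div_cancel₀ _ (by positivity : (k : ℝ) + 2 ≠ 0), Real.exp_log (by linarith)]
      filter_upwards [ev (4 / δ + 4)] with x hev
      obtain ⟨m0, m1, m2, m3, m4⟩ := hev
      intro N hN1 hN2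
      have h4 : 0 < 4 / δ := by positivity
      set l1 := Real.log x with hl1
      set l2 := Real.log l1 with hl2
      have hl10 : 0 < l1 := by linarith
      have hl20 : 0 < l2 := by linarith
      have e1 : l1 ≤ Real.log N := Real.log_le_log (by linarith) hN1.le
      have e2 : Real.log N ≤ l1 + 2 := by
        have h5 := Real.log_le_log (by linarith) hN2
        rw [Real.log_mul (by norm_num) (by linarith)] at h5
        have h6 : Real.log 4 ≤ 2 := by
          have h7 : Real.log 4 = 2 * Real.log 2 := by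
            rw [show (4 : ℝ) = 2 ^ 2 by norm_num, Real.log_pow]
            norm_num
          have := Real.log_two_lt_d9
          rw [h7]
          linarith
        linarith
      have e3 : l2 ≤ Real.log (Real.log N) := Real.log_le_log hl10 e1
      have e4 : Real.log (Real.log N) ≤ l2 + 2 / l1 := by
        have h5 := Real.log_le_log (by linarith) e2
        have h6 : l1 + 2 = l1 * (1 + 2 / l1) := by field_simp
        rw [h6, Real.log_mul hl10.ne' (by positivity)] at h5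
        have h7 := Real.log_le_sub_one_of_pos (show 0 < 1 + 2 / l1 by positivity)
        linarith
      have e5 : 2 ≤ δ * l1 := by
        have : 4 / δ ≤ l1 := by linarith
        rw [div_le_iff₀ hδ0] at this
        linarith
      have e6 : 2 / l1 ≤ δ * l2 := by
        rw [div_le_iff₀ hl10]
        have h1 : δ * l1 * 1 ≤ δ * l1 * l2 := by
          apply mul_le_mul_of_nonneg_left _ (by positivity)
          linarith
        nlinarith
      have e7 : Real.log N ≤ (1 + δ) * l1 := by linarith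
      have e8 : Real.log (Real.log N) ≤ (1 + δ) * l2 := by linarith
      constructor
      · show l1 * l2 ^ (k + 1) ≤ Real.log N * Real.log (Real.log N) ^ (k + 1)
        exact mul_le_mul e1 (pow_le_pow_left₀ hl20.le e3 _) (by positivity) (by linarith)
      · show Real.log N * Real.log (Real.log N) ^ (k + 1) ≤ (1 + ε') * (l1 * l2 ^ (k + 1))
        calc Real.log N * Real.log (Real.log N) ^ (k + 1) ≤ ((1 + δ) * l1) * ((1 + δ) * l2) ^ (k + 1) := by
              have h0 : 0 ≤ Real.log (Real.log N) := by linarith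
              exact mul_le_mul e7 (pow_le_pow_left₀ h0 e8 _) (pow_nonneg h0 _) (by positivity)
          _ = (1 + δ) ^ (k + 2) * (l1 * l2 ^ (k + 1)) := by
              rw [mul_pow]
              ring
          _ ≤ (1 + ε') * (l1 * l2 ^ (k + 1)) := by gcongr
    · -- `Y` is larger than `D`
      intro B
      filter_upwards [ev (1 + |B|)] with x hev
      obtain ⟨m0, m1, m2, m3, m4⟩ := hev
      have h0 := abs_nonneg B
      have h1 := le_abs_self B
      have hl1 : 0 < Real.log x := by linarith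
      have hl2 : 0 < Real.log (Real.log x) := by linarith
      unfold range
      have e1 : Real.log (Real.log x) ^ ((k : ℝ) + 3 - 1) = Real.log (Real.log x) ^ (k + 1) *
          Real.log (Real.log x) := by
        rw [← pow_succ, ← Real.rpow_natCast]
        congr 1
        push_cast
        ring
      rw [e1]
      have h3 : B * (Real.log x * Real.log (Real.log x) ^ (k + 1)) ≤
          Real.log (Real.log x) * (Real.log x * Real.log (Real.log x) ^ (k + 1)) := by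
        apply mul_le_mul_of_nonneg_right _ (by positivity)
        linarith
      linarith
    · filter_upwards [hx, hgood c hc, ev 1] with x hx2 hx34 hev
      obtain ⟨hx3, hx4⟩ := hx34
      obtain ⟨m0, m1, m2, -, -⟩ := hev
      intro q hqinj hq col hcol
      have hr0 : 0 ≤ range k 1 x := by
        unfold range
        have : 0 ≤ Real.log (Real.log x) := by linarith
        exact mul_nonneg (by linarith) (Real.rpow_nonneg this _)
      obtain ⟨N, h1, h2, h3, -, h5, h6, h7⟩ := hx2 (PIset k ⌊range k 1 x⌋₊) (range k 1 x) (fun p hp => by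
          obtain ⟨h1, h2⟩ := mem_PIset hp
          exact ⟨PI_prime h1, (Nat.le_floor_iff hr0).1 h2⟩) hx4 hx3 q hqinj hq col hcol ∅
        (by simpa using Real.rpow_nonneg (by linarith : (0 : ℝ) ≤ x) _)
      exact ⟨N, h1, h2, h3, h5, h6, fun p hp hpy p' hp' hpp => h7 p (by
        unfold PIset
        rw [mem_filter, mem_Icc]
        exact ⟨⟨(PI_prime hp).one_lt.le, Nat.le_floor hpy⟩, hp⟩) p' hp' hpp⟩

/-- **The small summands from a given set of primes.** There is `η > 0` and for every `m` there is `K ≥ m` such that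
for all large `x`, for ANY `K` distinct odd primes `K < q_j ≤ y` and any colouring of the indices with `m` colours, each
used at least `K/(2m)` times, there are at least `x^(9/10)` even `N ∈ (x, 4 x]` for which the indices `j` with `N - q_j`
prime have at least `η m` colours and every `p ∈ Q`, `p ≤ y`, with `N - p` prime is one of the `q_j`. This holds
(1) for an ARBITRARY set `Q` of primes (it may depend on `x`) and `y ≤ log x (log₂ x)^A` such that
`Q(y)^(1 - ε) y^ε ≤ c f(x)`, where `Q(y)` is the number of the elements of `Q` up to `y`;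
(2) for the primes `p` with `p, π(p), …, π^k(p)` prime and `y = log x (log₂ x)^(k + 3 - ε)`.
(3) For every `r` there is `K` such that for every `k` and all real `0 ≤ β_1 ≤ … ≤ β_K` there are `i_1 < … < i_r` for
which `(β_(i_1), …, β_(i_r))` is a limit point of the vectors of the `r` least primes `p` such that `N - p` and
`p, π(p), …, π^k(p)` are all prime, divided by `log N (log log N)^(k + 1)`, `N` even. -/
theorem result :
    (∃ η : ℝ, 0 < η ∧ ∀ m : ℕ, 1 ≤ m → ∃ K : ℕ, m ≤ K ∧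
      (∀ (A : ℕ) (ε : ℝ), 0 < ε → ∃ c : ℝ, 0 < c ∧ ∃ x₀ : ℝ, ∀ x : ℝ, x₀ ≤ x →
        ∀ Q : Set ℕ, (∀ p ∈ Q, p.Prime) → ∀ y : ℝ, y ≤ Real.log x * (Real.log (Real.log x)) ^ A →
        ({p ∈ Q | (p : ℝ) ≤ y}.ncard : ℝ) ^ (1 - ε) * y ^ ε ≤ c * f x →
        ∀ q : Fin K → ℕ, Function.Injective q → (∀ j, (q j).Prime ∧ K < q j ∧ q j ≠ 2 ∧ (q j : ℝ) ≤ y) →
        ∀ col : Fin K → Fin m, (∀ e, K ≤ 2 * m * {j | col j = e}.ncard) →
        x ^ (9 / 10 : ℝ) ≤ ((Numbers η x Q y q col).ncard : ℝ)) ∧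
      (∀ (k : ℕ) (ε : ℝ), 0 < ε → ε ≤ 1 → ∃ x₀ : ℝ, ∀ x : ℝ, x₀ ≤ x →
        ∀ q : Fin K → ℕ, Function.Injective q → (∀ j, (q j).Prime ∧ K < q j ∧ q j ≠ 2 ∧ (q j : ℝ) ≤ range k ε x) →
        ∀ col : Fin K → Fin m, (∀ e, K ≤ 2 * m * {j | col j = e}.ncard) →
        x ^ (9 / 10 : ℝ) ≤ ((Numbers η x (Order k) (range k ε x) q col).ncard : ℝ))) ∧
    ∀ r : ℕ, ∃ K : ℕ, r ≤ K ∧ ∀ (k : ℕ) (β : Fin K → ℝ), Monotone β → (∀ j, 0 ≤ β j) →
      ∃ I : Fin r → Fin K, StrictMono I ∧ ∀ ε : ℝ, 0 < ε → ∀ N₀ : ℕ, ∃ N : ℕ, N₀ ≤ N ∧ Even N ∧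
        ∃ p : Fin r → ℕ, Least (Order k) N p ∧
          ∀ i, |(p i : ℝ) / (Real.log N * Real.log (Real.log N) ^ (k + 1)) - β (I i)| < ε := by
  obtain ⟨η, hη, hs⟩ := main
  refine ⟨⟨η, hη, fun m hm => ?_⟩, fun r => ?_⟩
  · obtain ⟨K, h1, h2, h3, -⟩ := hs m hm
    exact ⟨K, h1, h2, h3⟩
  · obtain ⟨m, hm⟩ : ∃ m : ℕ, m = ⌈(r : ℝ) / η⌉₊ + r + 1 := ⟨_, rfl⟩
    have hηm : (r : ℝ) ≤ η * m := by
      have h1 := Nat.le_ceil ((r : ℝ) / η)
      have h2 : (r : ℝ) / η ≤ m := by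
        refine h1.trans ?_
        exact_mod_cast (by omega : ⌈(r : ℝ) / η⌉₊ ≤ m)
      rw [div_le_iff₀ hη] at h2
      linarith
    obtain ⟨K, h1, -, -, h4⟩ := hs m (by omega)
    exact ⟨K, by omega, fun k => h4 r hηm k⟩

end Pool.Agent.Results.MP_5d7b92_nt.SmallSummandSets
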