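import Pool.Agent.Q138.PS.UB
import Pool.Agent.Results.MP_5d7b92_nt.IndicesInSyndeticSets

/-!
# Goldbach representations of the even numbers `2 ⌊α P(n)⌋` with an index in a syndetic set

Let `q ≥ 2` and let `K_0, K_1, ...` be syndetic sets. Outside a set of real numbers of Hausdorff dimension at most
`q / (q + 1 / (q 2 ^ (q - 1)))` (that is `8 / 9` for `q = 2`) every `α > 0` has the following property: for each `j` and
each `ε > 0` there are `c, η > 0` such that for large `N`, for ALL integral polynomials `P` of degree `q` with positive leading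
coefficient and coefficients of size at most `N ^ η`, all but at most `ε N` of the numbers `2 ⌊α P(n)⌋`, `n ≤ N`, have at least
`c` times the expected number of representations `p + p'` with primes `p, p'` and `π(p) ∈ K_j`.
-/

set_option autoImplicit false

namespace Pool.Agent.Results.MP_5d7b92_nt.SyndeticIndicesRealMultiples

open Finset Filter Topology
open Pool.Agent.Q138.PS
open Pool.Agent.Results.MP_5d7b92_nt.IndicesInSyndeticSets (Syndetic representations exceptions main rough syndetic_rough)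

/-- `m > 0` and the even number `2 m` is a sum `p + p'` of two primes with `π(p) ∈ K` in fewer than
`c (2 m) ^ 2 / (φ(2 m) (log 2 m) ^ 2)` ways -/
def Bad (K : Set ℕ) (c : ℝ) (m : ℕ) : Prop :=
  0 < m ∧ ((representations K (2 * m)).card : ℝ) <
    c * (((2 * m : ℕ) : ℝ) ^ 2 / (Nat.totient (2 * m) * Real.log ((2 * m : ℕ) : ℝ) ^ 2))

open Classical in
/-- the number of the `1 ≤ n ≤ N` for which `⌊α P(n)⌋` is `Bad` -/
noncomputable def exc (K : Set ℕ) (c α : ℝ) (P : Polynomial ℤ) (N : ℕ) : ℕ :=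
  ((Icc 1 N).filter fun n : ℕ => Bad K c ⌊α * ((P.eval (n : ℤ) : ℤ) : ℝ)⌋₊).card

theorem seed (M : ℕ) (K : Set ℕ) (hK : Syndetic M K) (κ : ℝ) (hκ : 0 < κ) : ∃ c : ℝ, 0 < c ∧
    ∀ᶠ y : ℕ in atTop, cn (Bad K c) y ≤ κ * y := by
  classical
  obtain ⟨c, hc, h⟩ := main M K hK (κ / 2) (by positivity)
  refine ⟨c, hc, ?_⟩
  have ht : Tendsto (fun y : ℕ => 2 * y) atTop atTop := tendsto_id.const_mul_atTop' (by norm_num)
  filter_upwards [ht.eventually h] with y hy
  have h1 : cn (Bad K c) y ≤ ((exceptions K c (2 * y)).card : ℝ) := by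
    unfold cn
    refine Nat.cast_le.2 ?_
    refine card_le_card_of_injOn (fun m => 2 * m) (fun m hm => ?_) (fun a _ b _ hab => by
      have : 2 * a = 2 * b := hab
      omega)
    rw [mem_coe, mem_filter, mem_Icc] at hm
    unfold exceptions
    rw [mem_coe, mem_filter, mem_Icc]
    have h3 : 1 ≤ 2 * m ∧ 2 * m ≤ 2 * y := by omega
    exact ⟨h3, even_two_mul m, hm.2.2⟩
  refine h1.trans (hy.trans (le_of_eq ?_))
  push_cast
  ring

/-- **Theorem.** Let `q ≥ 2` and let `K_j`, `j ≥ 0`, be syndetic sets (for instance the integers without prime factors up to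
`j`). There is a set `E` of Hausdorff dimension at most `q / (q + 1 / (q 2 ^ (q - 1)))` such that
for each `α > 0` outside `E`, each `j` and each `ε > 0` there are `c > 0` and `η > 0` with the following property: for all
large `N` and ALL `P ∈ ℤ[X]` of degree `q` with positive leading coefficient and coefficients of size at most `N ^ η`, for all
but at most `ε N` of the `n ≤ N` the number `m = ⌊α P(n)⌋` is `0` or `2 m` has at least `c (2 m) ^ 2 / (φ(2 m) (log 2 m) ^ 2)`
representations `2 m = p + p'` with primes `p, p'` and `π(p) ∈ K_j`. The second part says that the sets of the integers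
without prime factors up to `z` are syndetic. -/
theorem result (q : ℕ) (hq : 2 ≤ q) :
    (∀ (M : ℕ → ℕ) (K : ℕ → Set ℕ), (∀ j, Syndetic (M j) (K j)) →
    ∃ E : Set ℝ, dimH E ≤ ENNReal.ofReal (q / (q + 1 / ((q : ℝ) * 2 ^ (q - 1)))) ∧ ∀ α : ℝ, 0 < α → α ∉ E →
      ∀ (j : ℕ) (ε : ℝ), 0 < ε → ∃ c η : ℝ, 0 < c ∧ 0 < η ∧ ∀ᶠ N : ℕ in atTop, ∀ P : Polynomial ℤ,
        P.natDegree = q → 0 < P.leadingCoeff → (∀ j, |((P.coeff j : ℤ) : ℝ)| ≤ (N : ℝ) ^ η) →
        (exc (K j) c α P N : ℝ) ≤ ε * N) ∧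
    ∀ z : ℕ, Syndetic (primorial z) (rough z) := by
  classical
  refine ⟨fun M K hK => ?_, syndetic_rough⟩
  have hs := fun i : ℕ × ℕ => seed (M i.1) (K i.1) (hK i.1) (1 / (2 * ((i.2 : ℝ) + 1))) (by positivity)
  choose D hD hX using hs
  obtain ⟨E, hE, h⟩ := dens_nat q hq (fun i : ℕ × ℕ => Bad (K i.1) (D i)) (fun i : ℕ × ℕ => 1 / (2 * ((i.2 : ℝ) + 1)))
    (fun i δ hδ => by
      filter_upwards [hX i] with y hy
      refine hy.trans ?_
      have : (0 : ℝ) ≤ y := Nat.cast_nonneg y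
      nlinarith)
  refine ⟨E, hE, fun α hα hαE j ε hε => ?_⟩
  obtain ⟨i, hi⟩ := exists_nat_one_div_lt hε
  obtain ⟨η, hη, h1⟩ := h α hα hαE (j, i)
  refine ⟨D (j, i), η, hD (j, i), hη, ?_⟩
  filter_upwards [h1 (1 / (2 * ((i : ℝ) + 1))) (by positivity)] with N hN P hdeg hlead hco
  have h2 := hN P hdeg hlead hco
  have h3 : (exc (K j) (D (j, i)) α P N : ℝ) ≤ cnP (Bad (K j) (D (j, i))) α P N := by
    unfold exc cnP cn
    refine Nat.cast_le.2 (card_le_card ?_)
    intro n hn
    rw [mem_filter] at hn ⊢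
    exact hn
  refine h3.trans (h2.trans ?_)
  have h4 : (1 / (2 * ((i : ℝ) + 1)) + 1 / (2 * ((i : ℝ) + 1))) = 1 / ((i : ℝ) + 1) := by
    field_simp
    norm_num
  change (1 / (2 * ((i : ℝ) + 1)) + 1 / (2 * ((i : ℝ) + 1))) * (N : ℝ) ≤ ε * N
  rw [h4]
  have : (0 : ℝ) ≤ N := Nat.cast_nonneg N
  gcongr

end Pool.Agent.Results.MP_5d7b92_nt.SyndeticIndicesRealMultiples
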